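import Pool.Agent.R681.BM.H

/-!
# The maximal ball partial sum operator with random signs, constant on blocks of shells
-/

namespace Pool.Agent.Results.MP_ee701d_an.BlockSigns

open MeasureTheory Real
open scoped ENNReal InnerProductSpace SchwartzMap FourierTransform

/-- The sign attached to the frequency `ξ` by the sign pattern `A`. The shells of width `1/ρ` are
`l < ρ |ξ| ≤ l + 1`, `l = 0, 1, 2, …` (the origin belongs to the shell `l = 0`), and the `q`-th block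
consists of the `2 ^ s` shells `q 2 ^ s ≤ l < (q + 1) 2 ^ s`. The sign is constant on each block,
equal to `-1` if `q ∈ A` and to `1` otherwise. -/
noncomputable def blockSign {n : ℕ} (ρ : ℝ) (s : ℕ) (A : Finset ℕ)
    (ξ : EuclideanSpace ℝ (Fin n)) : ℂ :=
  if (⌈ρ * ‖ξ‖⌉₊ - 1) / 2 ^ s ∈ A then -1 else 1

/-- The ball partial sum `S_R f_A (x) = ∫_{|ξ| ≤ R} ε_A(ξ) f^(ξ) e^{2πi x·ξ} dξ` of the function
`f_A` obtained from `f` by multiplying its Fourier transform by the signs of the pattern `A`. -/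
noncomputable def ballSum {n : ℕ} (f : 𝓢(EuclideanSpace ℝ (Fin n), ℂ)) (ρ : ℝ) (s : ℕ)
    (A : Finset ℕ) (R : ℝ) (x : EuclideanSpace ℝ (Fin n)) : ℂ :=
  ∫ ξ in Metric.closedBall (0 : EuclideanSpace ℝ (Fin n)) R,
    blockSign ρ s A ξ * ((𝓕 f) ξ * Complex.exp (2 * π * Complex.I * ((⟪x, ξ⟫_ℝ : ℝ) : ℂ)))

/-- For every dimension `n ≥ 1` there is a constant `C` such that for every `ρ > 0`, every Schwartz
function `f` and all `s`, `M`, the average over the `2 ^ M` choices of signs on the first `M` blocks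
of `2 ^ s` consecutive shells of width `1/ρ` of `∫_{|x| ≤ ρ} sup_{0 < R ≤ 2^s M/ρ} |S_R f_A(x)|² dx`
is at most `C (s + 1)² ‖f‖₂²`. -/
theorem result (n : ℕ) (hn : 1 ≤ n) : ∃ C : ℝ, ∀ ρ : ℝ, 0 < ρ →
    ∀ (f : 𝓢(EuclideanSpace ℝ (Fin n), ℂ)) (s M : ℕ),
      (∑ A ∈ (Finset.range M).powerset,
        ∫⁻ x in Metric.closedBall (0 : EuclideanSpace ℝ (Fin n)) ρ,
          ⨆ R ∈ Set.Ioc (0:ℝ) ((M * 2 ^ s : ℕ) / ρ), ‖ballSum f ρ s A R x‖ₑ ^ 2) / 2 ^ M ≤
      ENNReal.ofReal (C * ((s:ℝ) + 1) ^ 2 * ∫ x, ‖f x‖ ^ 2) := by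
  have : Nonempty (Fin n) := ⟨⟨0, hn⟩⟩
  have hnt : Nontrivial (EuclideanSpace ℝ (Fin n)) := by infer_instance
  refine ⟨(Pool.Agent.R681.BM.CB n).toReal, fun ρ hρ f s M => ?_⟩
  have h := Pool.Agent.R681.BM.scaledB (fun ξ => (𝓕 f) ξ) (𝓕 f).continuous (𝓕 f).integrable
    hρ s M
  have hpl : ∫⁻ ξ, ‖(𝓕 f) ξ‖ₑ ^ 2 = ENNReal.ofReal (∫ x, ‖f x‖ ^ 2) := by
    rw [← SchwartzMap.integral_norm_sq_fourier f, ofReal_integral_eq_lintegral_ofReal]
    · refine lintegral_congr fun ξ => ?_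
      rw [ENNReal.ofReal_pow (norm_nonneg _), ofReal_norm]
    · exact ((𝓕 f).memLp 2).integrable_norm_pow (by norm_num)
    · exact Filter.Eventually.of_forall fun ξ => by positivity
  rw [hpl] at h
  have hC : Pool.Agent.R681.BM.CB n = ENNReal.ofReal (Pool.Agent.R681.BM.CB n).toReal :=
    (ENNReal.ofReal_toReal Pool.Agent.R681.BM.CB_ne_top).symm
  have hs : ENNReal.ofReal (((s:ℝ) + 1) ^ 2) = ((s:ℝ≥0∞) + 1) ^ 2 := by
    rw [ENNReal.ofReal_pow (by positivity), ENNReal.ofReal_add (by positivity) (by positivity),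
      ENNReal.ofReal_natCast, ENNReal.ofReal_one]
  rw [ENNReal.ofReal_mul (by positivity), ENNReal.ofReal_mul ENNReal.toReal_nonneg, ← hC, hs]
  refine ENNReal.div_le_of_le_mul' ?_
  exact h

end Pool.Agent.Results.MP_ee701d_an.BlockSigns
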