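import Pool.Agent.R13.Few.Down
import Pool.Agent.R13.Gen.Baire

/-! MP_ee701d_an: equivalent forms of Q1.  (1) a local estimate over any relatively dense set of
radii; (2) the linearised estimate in dimension `n + k` for radius functions that depend on `n` of
the coordinates; (3) a dichotomy: Q1, or generic failure on every ball. -/

open MeasureTheory Complex Real Metric
open scoped ENNReal NNReal SchwartzMap FourierTransform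

namespace Pool.Agent.Results.MP_ee701d_an.EquivalentForms

open R13.Radii

/-- `ℝ^n`. -/
abbrev E (n : ℕ) := EuclideanSpace ℝ (Fin n)

/-- `T_R g(x) = ∫_{|ξ|≤R} e^{2πi x·ξ} g(ξ) dξ`: the ball partial sum `S_R f` of the function `f`
whose Fourier transform is `g`. -/
noncomputable def T {n : ℕ} (g : E n → ℂ) (R : ℝ) (x : E n) : ℂ :=
  ∫ ξ in closedBall (0 : E n) R, Complex.exp (2 * π * I * (inner ℝ x ξ : ℝ)) * g ξ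

/-- `S^* f(x) = sup_{R>0} |S_R f(x)|` for Schwartz `f`. -/
noncomputable def Smax {n : ℕ} (f : 𝓢(E n, ℂ)) (x : E n) : ℝ≥0∞ :=
  ⨆ R ∈ Set.Ioi (0:ℝ), ‖T (𝓕 (f : E n → ℂ)) R x‖ₑ

/-- Q1 of the problem in dimension `n`. -/
def Q1 (n : ℕ) : Prop :=
  ∃ C : ℝ≥0, ∀ f : 𝓢(E n, ℂ), ∫⁻ x, Smax f x ^ 2 ≤ (C : ℝ≥0∞) ^ 2 * ∫⁻ x, ‖f x‖ₑ ^ 2

/-- `Λ` meets every interval `[a, a+L]`, `a ≥ 0`, for some `L`. -/
def RelDense (Λ : Set ℝ) : Prop := ∃ L : ℝ, ∀ a : ℝ, 0 ≤ a → ∃ R ∈ Λ, a ≤ R ∧ R ≤ a + L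

/-- The local maximal estimate over the radii in `Λ` on the ball of radius `ρ`. -/
def LocalEstimate (n : ℕ) (Λ : Set ℝ) (ρ : ℝ) : Prop :=
  ∃ C : ℝ≥0, ∀ f : 𝓢(E n, ℂ),
    ∫⁻ x in closedBall (0 : E n) ρ, (⨆ R ∈ Λ, ‖T (𝓕 (f : E n → ℂ)) R x‖ₑ) ^ 2
      ≤ (C : ℝ≥0∞) ^ 2 * ∫⁻ x, ‖f x‖ₑ ^ 2

/-- The last `n` of the `n + k` coordinates. -/
noncomputable def tail (n k : ℕ) (w : E (n + k)) : E n := WithLp.toLp 2 (fun i => w (Fin.addNat i k))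

/-- The estimate of Q1 in dimension `n + k` for radii that depend on the last `n` coordinates. -/
def FewCoordinates (n k : ℕ) : Prop :=
  ∃ C : ℝ≥0, ∀ ϱ : E n → ℝ, Measurable ϱ → (∀ u, 0 < ϱ u) → ∀ f : 𝓢(E (n + k), ℂ),
    ∫⁻ w, ‖T (𝓕 (f : E (n + k) → ℂ)) (ϱ (tail n k w)) w‖ₑ ^ 2
      ≤ (C : ℝ≥0∞) ^ 2 * ∫⁻ w, ‖f w‖ₑ ^ 2

/-- `sup_{R>0} |T_R g|` is square integrable on `ℝ^n`. -/
def MaxInL2 {n : ℕ} (g : E n → ℂ) : Prop :=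
  ∫⁻ x, (⨆ R ∈ Set.Ioi (0:ℝ), ‖T g R x‖ₑ) ^ 2 < ∞

/-- `sup_{R∈Λ} |T_R g|` is not square integrable on any ball. -/
def NowhereL2 {n : ℕ} (Λ : Set ℝ) (g : E n → ℂ) : Prop :=
  ∀ (x₀ : E n) (ρ : ℝ), 0 < ρ → ∫⁻ x in closedBall x₀ ρ, (⨆ R ∈ Λ, ‖T g R x‖ₑ) ^ 2 = ∞

/-- `NowhereL2 Λ` functions are dense in `L²(ℝ^n)`. -/
def DenseNowhereL2 (n : ℕ) (Λ : Set ℝ) : Prop :=
  ∀ g₀ : E n → ℂ, MemLp g₀ 2 volume → ∀ ε : ℝ≥0∞, 0 < ε →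
    ∃ g : E n → ℂ, MemLp g 2 volume ∧ eLpNorm (g - g₀) 2 volume < ε ∧ NowhereL2 Λ g

lemma finrank_E {n : ℕ} (hn : 1 ≤ n) : 1 ≤ Module.finrank ℝ (E n) := by simpa using hn

lemma coe_sq_of (C : ℝ≥0∞) (hC : C ≠ ∞) : ∃ D : ℝ≥0, C ≤ (D : ℝ≥0∞) ^ 2 := by
  refine ⟨1 + C.toNNReal, ?_⟩
  have h : C = (C.toNNReal : ℝ≥0∞) := (ENNReal.coe_toNNReal hC).symm
  set c := C.toNNReal with hc
  rw [h]
  norm_cast
  have h2 : (1 + c) ^ 2 = c + (1 + c + c ^ 2) := by ring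
  rw [h2]
  exact le_self_add

lemma T_nonpos {n : ℕ} (hn : 1 ≤ n) (g : E n → ℂ) {R : ℝ} (hR : R ≤ 0) (x : E n) : T g R x = 0 := by
  rcases hR.lt_or_eq with h | h
  · unfold T
    rw [closedBall_eq_empty.2 h]
    simp
  · have : Nontrivial (E n) := finrank_pos_nontrivial (finrank_E hn)
    rw [h]
    exact ballInt_zero _ x

lemma sup_le {n : ℕ} (hn : 1 ≤ n) (g : E n → ℂ) (Λ : Set ℝ) (x : E n) :
    (⨆ R ∈ Λ, ‖T g R x‖ₑ) ≤ ⨆ R ∈ Set.Ioi (0:ℝ), ‖T g R x‖ₑ := by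
  refine iSup₂_le fun R _ => ?_
  rcases le_or_gt R 0 with h | h
  · rw [T_nonpos hn g h]; simp
  · exact le_iSup₂_of_le (f := fun (R : ℝ) (_ : R ∈ Set.Ioi (0:ℝ)) => ‖T g R x‖ₑ) R h le_rfl

lemma l2_of_q1 {n : ℕ} {C : ℝ≥0}
    (hC : ∀ f : 𝓢(E n, ℂ), ∫⁻ x, Smax f x ^ 2 ≤ (C : ℝ≥0∞) ^ 2 * ∫⁻ x, ‖f x‖ₑ ^ 2)
    {g : E n → ℂ} (hg : MemLp g 2 volume) :
    ∫⁻ x, maxBall g x ^ 2 ≤ (C : ℝ≥0∞) ^ 2 * ∫⁻ ξ, ‖g ξ‖ₑ ^ 2 := by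
  refine R13.Dim.extend (by simp) (fun u => ?_) hg
  set f : 𝓢(E n, ℂ) := 𝓕⁻ u with hf
  have hFf : 𝓕 f = u := FourierTransform.fourier_fourierInv_eq u
  have h1 := hC f
  have h2 : ∫⁻ x, ‖f x‖ₑ ^ 2 = ∫⁻ ξ, ‖u ξ‖ₑ ^ 2 := by
    rw [← plancherel_lintegral f, hFf]
  rw [h2] at h1
  have h3 : ∀ x, Smax f x = maxBall (u : E n → ℂ) x := by
    intro x
    change maxBall (𝓕 (f : E n → ℂ)) x = _
    rw [← SchwartzMap.fourier_coe, hFf]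
  simp_rw [h3] at h1
  exact h1

/-! ### Relatively dense radii -/

theorem q1_iff {n : ℕ} (hn : 1 ≤ n) {Λ : Set ℝ} (hΛ : RelDense Λ) {ρ : ℝ} (hρ : 0 < ρ) :
    Q1 n ↔ LocalEstimate n Λ ρ := by
  have hd := finrank_E hn
  constructor
  · rintro ⟨C, hC⟩
    refine ⟨C, fun f => ?_⟩
    refine le_trans ?_ (hC f)
    refine le_trans (lintegral_mono fun x => ?_) (setLIntegral_le_lintegral _ _)
    change (⨆ R ∈ Λ, ‖T (𝓕 (f : E n → ℂ)) R x‖ₑ) ^ 2 ≤ Smax f x ^ 2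
    gcongr
    exact sup_le hn _ Λ x
  · rintro ⟨C, hC⟩
    obtain ⟨r, L, hr0, hr, hgap, hrt, hmem⟩ := exists_seq (Λ := Λ) hΛ
    set D : ℝ≥0∞ := 4 * (C : ℝ≥0∞) ^ 2 + 4 * (ENNReal.ofReal (24 * rexp π * shellConst (E n))
      * ENNReal.ofReal (L * ρ)) with hD
    have hDtop : D ≠ ∞ := by
      rw [hD]
      refine ENNReal.add_ne_top.2 ⟨?_, ?_⟩
      · exact ENNReal.mul_ne_top (by norm_num) (by simp)
      · exact ENNReal.mul_ne_top (by norm_num)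
          (ENNReal.mul_ne_top ENNReal.ofReal_ne_top ENNReal.ofReal_ne_top)
    obtain ⟨D', hD'⟩ := coe_sq_of D hDtop
    refine ⟨D', fun f => ?_⟩
    refine le_trans ?_ (mul_le_mul_left hD' _)
    set g : 𝓢(E n, ℂ) := 𝓕 f with hg
    have hPl : ∫⁻ x, ‖f x‖ₑ ^ 2 = ∫⁻ ξ, ‖g ξ‖ₑ ^ 2 := (plancherel_lintegral f).symm
    rw [hPl]
    have hS : ∀ x, Smax f x = maxBall (g : E n → ℂ) x := fun x => rfl
    simp_rw [hS]
    refine global_of_dilates hρ fun t ht => ?_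
    -- the dilated Schwartz function
    set gt : 𝓢(E n, ℂ) := dil t ht g with hgt
    set ft : 𝓢(E n, ℂ) := 𝓕⁻ gt with hft
    have hFft : 𝓕 ft = gt := FourierTransform.fourier_fourierInv_eq gt
    have hcoe : (fun ξ => g (t⁻¹ • ξ)) = (gt : E n → ℂ) := by
      funext ξ; rw [hgt, dil_apply]
    have hmem2 : MemLp (gt : E n → ℂ) 2 (volume : Measure (E n)) := gt.memLp 2 volume
    have h1 : ∫⁻ x in closedBall (0 : E n) ρ, (⨆ k, ‖ballInt (gt : E n → ℂ) (r k) x‖ₑ) ^ 2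
        ≤ (C : ℝ≥0∞) ^ 2 * ∫⁻ ξ, ‖gt ξ‖ₑ ^ 2 := by
      have h2 := hC ft
      have h3 : ∫⁻ x, ‖ft x‖ₑ ^ 2 = ∫⁻ ξ, ‖gt ξ‖ₑ ^ 2 := by
        rw [← plancherel_lintegral ft, hFft]
      rw [h3] at h2
      refine le_trans (lintegral_mono fun x => ?_) h2
      change (⨆ k, ‖ballInt (gt : E n → ℂ) (r k) x‖ₑ) ^ 2
        ≤ (⨆ R ∈ Λ, ‖T (𝓕 (ft : E n → ℂ)) R x‖ₑ) ^ 2
      have hSft : ∀ R, T (𝓕 (ft : E n → ℂ)) R x = ballInt (gt : E n → ℂ) R x := by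
        intro R
        change ballInt (𝓕 (ft : E n → ℂ)) R x = _
        rw [← SchwartzMap.fourier_coe, hFft]
      gcongr
      refine iSup_le fun k => ?_
      rcases k with _ | k
      · have : Nontrivial (E n) := finrank_pos_nontrivial hd
        rw [hr0, ballInt_zero]; simp
      · rw [← hSft]
        exact le_iSup₂_of_le (r (k+1)) (hmem k) le_rfl
    have h4 := local_full hd hmem2 hr hr0 hgap hrt hρ h1
    simp only [hcoe]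
    have h5 : ∫⁻ ξ, ‖g (t⁻¹ • ξ)‖ₑ ^ 2 = ∫⁻ ξ, ‖gt ξ‖ₑ ^ 2 := by
      simp only [hgt, dil_apply]
    rw [h5]
    exact h4

/-! ### Radius functions of few coordinates -/

theorem up_q1 {m : ℕ} (hm : 1 ≤ m) (k : ℕ) (h : Q1 m) : FewCoordinates m k := by
  obtain ⟨C, hC⟩ := h
  have hD0 : (C : ℝ≥0∞) ^ 2 + 1 ≠ 0 := by simp
  have hL2 : ∀ g : E m → ℂ, MemLp g 2 volume →
      ∫⁻ x, maxBall g x ^ 2 ≤ ((C : ℝ≥0∞) ^ 2 + 1) * ∫⁻ ξ, ‖g ξ‖ₑ ^ 2 := by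
    intro g hg
    refine (l2_of_q1 hC hg).trans ?_
    gcongr
    exact le_self_add
  obtain ⟨D, hD⟩ := coe_sq_of (2 ^ k * ((C : ℝ≥0∞) ^ 2 + 1)) (by
    refine ENNReal.mul_ne_top (by simp) ?_
    exact ENNReal.add_ne_top.2 ⟨by simp, by simp⟩)
  refine ⟨D, fun ϱ hϱ _ f => ?_⟩
  refine le_trans ?_ (mul_le_mul_left hD _)
  set g : 𝓢(E (m + k), ℂ) := 𝓕 f with hg
  have hPl : ∫⁻ x, ‖f x‖ₑ ^ 2 = ∫⁻ ξ, ‖g ξ‖ₑ ^ 2 := (plancherel_lintegral f).symm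
  rw [hPl]
  exact R13.Few.up hm hD0 hL2 k ϱ hϱ (g : E (m + k) → ℂ) g.continuous.measurable (g.memLp 2 volume)

theorem down_q1 {m : ℕ} (hm : 1 ≤ m) (k : ℕ) (h : FewCoordinates m k) : Q1 m := by
  obtain ⟨C, hC⟩ := h
  have hlin : R13.Few.Lin m k ((C : ℝ≥0∞) ^ 2) := by
    refine R13.Few.lin_of_schwartz (by simp) fun ϱ hϱ hpos u => ?_
    set f : 𝓢(E (m + k), ℂ) := 𝓕⁻ u with hf
    have hFf : 𝓕 f = u := FourierTransform.fourier_fourierInv_eq u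
    have h1 := hC ϱ hϱ hpos f
    have h2 : ∫⁻ x, ‖f x‖ₑ ^ 2 = ∫⁻ ξ, ‖u ξ‖ₑ ^ 2 := by
      rw [← plancherel_lintegral f, hFf]
    rw [h2] at h1
    have h3 : ∀ w, T (𝓕 (f : E (m + k) → ℂ)) (ϱ (tail m k w)) w
        = ballInt (u : E (m + k) → ℂ) (ϱ (R13.Few.tail m k w)) w := by
      intro w
      change ballInt (𝓕 (f : E (m + k) → ℂ)) (ϱ (R13.Few.tail m k w)) w = _
      rw [← SchwartzMap.fourier_coe, hFf]
    simp_rw [h3] at h1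
    exact h1
  obtain ⟨D', hD', hl⟩ := R13.Few.down_to_zero hm k (by simp) hlin
  obtain ⟨D, hD⟩ := coe_sq_of D' hD'
  refine ⟨D, fun f => ?_⟩
  refine le_trans ?_ (mul_le_mul_left hD _)
  set g : 𝓢(E m, ℂ) := 𝓕 f with hg
  have hPl : ∫⁻ x, ‖f x‖ₑ ^ 2 = ∫⁻ ξ, ‖g ξ‖ₑ ^ 2 := (plancherel_lintegral f).symm
  rw [hPl]
  have hS : ∀ x, Smax f x = maxBall (g : E m → ℂ) x := fun x => rfl
  simp_rw [hS]
  exact R13.Few.base hm hl g.continuous.measurable (g.memLp 2 volume)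

/-! ### Generic failure -/

lemma q1_of_local {n : ℕ} (hn : 1 ≤ n) {r : ℕ → ℝ} {L : ℝ} (hr0 : r 0 = 0) (hr : StrictMono r)
    (hgap : ∀ k, r (k+1) - r k ≤ L) (hrt : Filter.Tendsto r Filter.atTop Filter.atTop)
    {ρ : ℝ} (hρ : 0 < ρ) {C : ℝ≥0∞} (hC : C ≠ ∞)
    (h : ∀ g : E n → ℂ, MemLp g 2 volume → R13.Gen.en r (0 : E n) ρ g ≤ C * ∫⁻ ξ, ‖g ξ‖ₑ ^ 2) :
    Q1 n := by
  have hd : 1 ≤ Module.finrank ℝ (E n) := by simpa using hn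
  set D : ℝ≥0∞ := 4 * C + 4 * (ENNReal.ofReal (24 * rexp π * shellConst (E n))
    * ENNReal.ofReal (L * ρ)) with hD
  have hDtop : D ≠ ∞ := by
    rw [hD]
    refine ENNReal.add_ne_top.2 ⟨?_, ?_⟩
    · exact ENNReal.mul_ne_top (by norm_num) hC
    · exact ENNReal.mul_ne_top (by norm_num)
        (ENNReal.mul_ne_top ENNReal.ofReal_ne_top ENNReal.ofReal_ne_top)
  obtain ⟨D', hD'⟩ := coe_sq_of D hDtop
  refine ⟨D', fun f => ?_⟩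
  refine le_trans ?_ (mul_le_mul_left hD' _)
  set g : 𝓢(E n, ℂ) := 𝓕 f with hg
  have hPl : ∫⁻ x, ‖f x‖ₑ ^ 2 = ∫⁻ ξ, ‖g ξ‖ₑ ^ 2 := (plancherel_lintegral f).symm
  rw [hPl]
  have hS : ∀ x, Smax f x = maxBall (g : E n → ℂ) x := fun x => rfl
  simp_rw [hS]
  refine global_of_dilates hρ fun t ht => ?_
  have hmem : MemLp (fun ξ => g (t⁻¹ • ξ)) 2 (volume : Measure (E n)) :=
    memLp_comp_smul (g.memLp 2 volume) (inv_pos.2 ht)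
  exact local_full hd hmem hr hr0 hgap hrt hρ (h _ hmem)

theorem max_in {n : ℕ} (hQ : Q1 n) (g : E n → ℂ) (hg : MemLp g 2 volume) : MaxInL2 g := by
  obtain ⟨C, hC⟩ := hQ
  refine lt_of_le_of_lt (l2_of_q1 hC hg) ?_
  rw [← R13.Dim.sq_int_eq]
  exact ENNReal.mul_lt_top (by simp) (ENNReal.pow_lt_top hg.eLpNorm_lt_top)

theorem dense_failure {n : ℕ} (hn : 1 ≤ n) (hQ : ¬ Q1 n) (Λ : Set ℝ) (hΛ : RelDense Λ) :
    DenseNowhereL2 n Λ := by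
  obtain ⟨r, L, hr0, hr, hgap, hrt, hmem⟩ := exists_seq (Λ := Λ) hΛ
  have hd : 1 ≤ Module.finrank ℝ (E n) := by simpa using hn
  have hnt : Nontrivial (E n) := finrank_pos_nontrivial hd
  rcases R13.Gen.dichotomy_all (V := E n) r with h | h
  · obtain ⟨ρ, hρ, C, hC, hest⟩ := h
    exact absurd (q1_of_local hn hr0 hr hgap hrt hρ hC hest) hQ
  · intro g₀ hg₀ ε hε
    have hfact : Fact ((1:ℝ≥0∞) ≤ 2) := ⟨by norm_num⟩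
    have hdense : Dense {g : Lp ℂ 2 (volume : Measure (E n)) |
        ∀ (x₀ : E n) (ρ : ℝ), 0 < ρ → R13.Gen.en r x₀ ρ (g : E n → ℂ) = ∞} :=
      dense_of_mem_residual h
    obtain ⟨g, hgm, hg⟩ := hdense.inter_open_nonempty (Metric.eball (hg₀.toLp g₀) ε)
      Metric.isOpen_eball ⟨hg₀.toLp g₀, Metric.mem_eball_self hε⟩
    refine ⟨(g : E n → ℂ), Lp.memLp g, ?_, ?_⟩
    · have h1 : edist g (hg₀.toLp g₀) < ε := hgm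
      have h2 : edist g (hg₀.toLp g₀) = eLpNorm ((g : E n → ℂ) - g₀) 2 volume := by
        conv_lhs => rw [← Lp.toLp_coeFn g (Lp.memLp g)]
        rw [Lp.edist_toLp_toLp]
      rwa [h2] at h1
    · intro x₀ ρ hρ
      rw [← top_le_iff, ← hg x₀ ρ hρ]
      refine lintegral_mono fun x => ?_
      change (⨆ k, ‖ballInt (g : E n → ℂ) (r k) x‖ₑ) ^ 2 ≤ (⨆ R ∈ Λ, ‖T (g : E n → ℂ) R x‖ₑ) ^ 2
      gcongr
      refine iSup_le fun k => ?_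
      rcases k with _ | k
      · rw [hr0, ballInt_zero]; simp
      · exact le_iSup₂_of_le (r (k+1)) (hmem k) le_rfl

theorem not_dense {n : ℕ} (hn : 1 ≤ n) (hQ : Q1 n) (Λ : Set ℝ) : ¬ DenseNowhereL2 n Λ := by
  intro h
  have h0 : MemLp (0 : E n → ℂ) 2 (volume : Measure (E n)) := MemLp.zero
  obtain ⟨g, hg, _, hno⟩ := h 0 h0 1 one_pos
  have h1 := hno 0 1 one_pos
  have h2 : ∫⁻ x, (⨆ R ∈ Set.Ioi (0:ℝ), ‖T g R x‖ₑ) ^ 2 < ∞ := max_in hQ g hg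
  have h3 : ∫⁻ x in closedBall (0 : E n) 1, (⨆ R ∈ Λ, ‖T g R x‖ₑ) ^ 2
      ≤ ∫⁻ x, (⨆ R ∈ Set.Ioi (0:ℝ), ‖T g R x‖ₑ) ^ 2 := by
    refine le_trans (lintegral_mono fun x => ?_) (setLIntegral_le_lintegral _ _)
    have := sup_le hn g Λ x
    change (⨆ R ∈ Λ, ‖T g R x‖ₑ) ^ 2 ≤ (⨆ R ∈ Set.Ioi (0:ℝ), ‖T g R x‖ₑ) ^ 2
    gcongr
  rw [h1] at h3
  exact absurd h2 (not_lt.2 h3)

/-- **Main result.** -/
theorem result (n : ℕ) (hn : 1 ≤ n) :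
    (∀ (Λ : Set ℝ), RelDense Λ → ∀ ρ : ℝ, 0 < ρ → (Q1 n ↔ LocalEstimate n Λ ρ)) ∧
    (∀ k : ℕ, Q1 n ↔ FewCoordinates n k) ∧
    (∀ Λ : Set ℝ, RelDense Λ → (Q1 n ↔ ¬ DenseNowhereL2 n Λ)) ∧
    (∀ k : ℕ, Q1 (n + k) → Q1 n) ∧
    (Q1 n → ∀ g : E n → ℂ, MemLp g 2 volume → MaxInL2 g) := by
  refine ⟨fun Λ hΛ ρ hρ => q1_iff hn hΛ hρ, fun k => ⟨up_q1 hn k, down_q1 hn k⟩,
    fun Λ hΛ => ⟨fun hQ => not_dense hn hQ Λ, fun h => ?_⟩, fun k h => down_q1 hn k ?_, max_in⟩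
  · by_contra hQ
    exact h (dense_failure hn hQ Λ hΛ)
  · obtain ⟨C, hC⟩ := h
    refine ⟨C, fun ϱ _ hpos f => ?_⟩
    refine le_trans (lintegral_mono fun w => ?_) (hC f)
    gcongr
    exact le_iSup₂_of_le (ϱ (tail n k w)) (hpos _) le_rfl

end Pool.Agent.Results.MP_ee701d_an.EquivalentForms
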