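import Pool.Agent.R257.SP.RM
import Pool.Agent.R257.SP.HL
import Pool.Agent.R257.SP.GM
import Pool.Agent.R257.SP.GF
import Pool.Agent.R257.SP.MS
import Pool.Agent.R257.SP.LAC
import Pool.Agent.R257.SP.BLK
import Pool.Agent.R257.SP.LP
import Pool.Agent.R257.SP.SV
import Pool.Agent.R257.SP.TH
import Pool.Agent.R257.SP.CORE
import Pool.Agent.R257.SP.INV
import Pool.Agent.R257.SP.EXT
import Pool.Agent.R257.SP.AE
import Pool.Agent.R257.SP.W2
import Pool.Agent.R257.SP.Bridge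

/-!
# Ball partial sums along sets of radii with few unit cells in each dyadic block

The maximal ball partial sum operator over a set `E` of radii, localised to balls of radius `ρ`:
the loss in the `L²` inequality is the square of the logarithm of the number of cells of length
`1 / ρ` which `E` meets in each dyadic block.
-/

namespace Pool.Agent.Results.MP_ee701d_an.LogCovering

open MeasureTheory Set Metric Filter Topology
open scoped ENNReal NNReal FourierTransform SchwartzMap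

/-- The integral of `g(ξ) e^{2πi x·ξ}` over the ball `|ξ| ≤ R`. -/
noncomputable def ballInt {n : ℕ} (g : EuclideanSpace ℝ (Fin n) → ℂ) (R : ℝ)
    (x : EuclideanSpace ℝ (Fin n)) : ℂ :=
  ∫ ξ in closedBall (0 : EuclideanSpace ℝ (Fin n)) R,
    g ξ * Complex.exp (((2 * Real.pi * inner ℝ x ξ : ℝ) : ℂ) * Complex.I)

/-- The ball partial sum `S_R f(x)` of a Schwartz function `f` on `ℝⁿ`. -/
noncomputable def ballSum {n : ℕ} (f : 𝓢(EuclideanSpace ℝ (Fin n), ℂ)) (R : ℝ)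
    (x : EuclideanSpace ℝ (Fin n)) : ℂ :=
  ballInt (𝓕 (f : EuclideanSpace ℝ (Fin n) → ℂ)) R x

/-- The integer parts `⌊ρ R⌋` of the radii `R ∈ E` with `2 ^ j ≤ ρ R < 2 ^ (j + 1)`. -/
def cells (E : Set ℝ) (ρ : ℝ) (j : ℕ) : Set ℕ :=
  {k : ℕ | ∃ R ∈ E, (2 : ℝ) ^ j ≤ ρ * R ∧ ρ * R < 2 ^ (j + 1) ∧ k = ⌊ρ * R⌋₊}

/-- `E` is a set of positive radii with at most `N j` cells in the block `j`. -/
def Few (E : Set ℝ) (ρ : ℝ) (N : ℕ → ℕ) : Prop :=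
  E ⊆ Ioi 0 ∧ ∀ j : ℕ, (cells E ρ j).encard ≤ N j

/-- The maximal ball partial sum over the radii of `E`. -/
noncomputable def maxSum {n : ℕ} (E : Set ℝ) (f : 𝓢(EuclideanSpace ℝ (Fin n), ℂ))
    (x : EuclideanSpace ℝ (Fin n)) : ℝ≥0∞ :=
  ⨆ R ∈ E, ‖ballSum f R x‖ₑ

/-- The integral of `|f̂|²` over a set. -/
noncomputable def energy {n : ℕ} (f : 𝓢(EuclideanSpace ℝ (Fin n), ℂ))
    (A : Set (EuclideanSpace ℝ (Fin n))) : ℝ≥0∞ :=
  ∫⁻ ξ in A, ‖𝓕 (f : EuclideanSpace ℝ (Fin n) → ℂ) ξ‖ₑ ^ 2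

/-- The weighted sum
`∫_{|ξ| ≤ 1/ρ} |f̂|² + ∑_j (1 + log N_j)² ∫_{2^j/ρ < |ξ| ≤ 2^(j+1)/ρ} |f̂|²`. -/
noncomputable def weighted {n : ℕ} (f : 𝓢(EuclideanSpace ℝ (Fin n), ℂ)) (ρ : ℝ) (N : ℕ → ℕ) :
    ℝ≥0∞ :=
  energy f {ξ | ‖ξ‖ ≤ 1 / ρ} + ∑' j : ℕ, ENNReal.ofReal ((1 + Real.log (N j)) ^ 2) *
    energy f {ξ | 2 ^ j / ρ < ‖ξ‖ ∧ ‖ξ‖ ≤ 2 ^ (j + 1) / ρ}

/-- `g` is the `L²` Fourier transform of `f`: both are in `L²` and
`∫ g φ = ∫ f φ̂` for all Schwartz functions `φ`. -/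
def IsFourierPair {n : ℕ} (f g : EuclideanSpace ℝ (Fin n) → ℂ) : Prop :=
  MemLp f 2 ∧ MemLp g 2 ∧ ∀ φ : 𝓢(EuclideanSpace ℝ (Fin n), ℂ),
    ∫ ξ, g ξ * φ ξ = ∫ x, f x * 𝓕 (φ : EuclideanSpace ℝ (Fin n) → ℂ) x

/-- The ball integrals of `g` converge to `f` almost everywhere as `R → ∞` in `E`. -/
def ConvAE {n : ℕ} (E : Set ℝ) (g f : EuclideanSpace ℝ (Fin n) → ℂ) : Prop :=
  ∀ᵐ x, Tendsto (fun R : ℝ => ballInt g R x) (atTop ⊓ 𝓟 E) (𝓝 (f x))

/-- Local maximal inequality for the ball partial sums over an arbitrary set of radii, with the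
logarithms of the numbers of cells, and convergence almost everywhere on `L²` along the sets with
a bounded number of cells in each dyadic block. -/
theorem result (n : ℕ) (hn : 2 ≤ n) :
    (∃ C : ℝ, ∀ (ρ : ℝ), 0 < ρ → ∀ (N : ℕ → ℕ) (E : Set ℝ), Few E ρ N →
      ∀ (f : 𝓢(EuclideanSpace ℝ (Fin n), ℂ)) (y : EuclideanSpace ℝ (Fin n)),
      ∫⁻ x in ball y ρ, maxSum E f x ^ 2 ≤ ENNReal.ofReal C * weighted f ρ N) ∧
    (∀ (ρ : ℝ), 0 < ρ → ∀ (N : ℕ) (E : Set ℝ), Few E ρ (fun _ => N) →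
      ∀ f g : EuclideanSpace ℝ (Fin n) → ℂ, IsFourierPair f g → ConvAE E g f) := by
  have hCORE : R257.SP.Stm.CORE := R257.SP.CORE_proof (R257.SP.TH_proof R257.SP.LP_proof R257.SP.SV_proof)
  have hBLK : R257.SP.Stm.BLK := R257.SP.BLK_proof R257.SP.RM_proof
  have hLAC : R257.SP.Stm.LAC :=
    R257.SP.LAC_proof R257.SP.GF_proof R257.SP.GM_proof R257.SP.HL_proof R257.SP.MS_proof
  constructor
  · obtain ⟨C, _, hC⟩ := R257.SP.weighted hLAC hBLK hCORE n (by omega)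
    refine ⟨C, fun ρ hρ N E hF f y => (hC ρ hρ N E hF.1 hF.2 f y).trans (le_of_eq ?_)⟩
    have h0 : closedBall (0 : EuclideanSpace ℝ (Fin n)) ρ⁻¹ = {ξ | ‖ξ‖ ≤ 1 / ρ} := by
      ext ξ
      rw [mem_closedBall, dist_zero_right, one_div]
      rfl
    rw [h0]
    rfl
  · intro ρ hρ N E hF
    have hE := hF.1
    have hcell : ∀ j, (cells E ρ j).encard ≤ N := hF.2
    obtain ⟨C, hC⟩ := R257.SP.FIN_proof (R257.SP.UNIT_proof hLAC hBLK hCORE) R257.SP.DIL_proof n hn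
    have hcell' : ∀ j, (R257.SP.cells E ρ j).encard ≤ (max N 1 : ℕ) := fun j =>
      (hcell j).trans (by exact_mod_cast le_max_left N 1)
    have h1 : ∀ (f : 𝓢(R257.SP.V n, ℂ)) (y : R257.SP.V n),
        ∫⁻ x in ball y ρ, (⨆ R ∈ E, ‖R257.SP.ballSum f R x‖ₑ) ^ 2 ≤
        ENNReal.ofReal (C * (1 + Real.log (max N 1 : ℕ)) ^ 2) * ∫⁻ x, ‖f x‖ₑ ^ 2 :=
      fun f y => hC ρ hρ (max N 1) (le_max_right _ _) E hE hcell' f y
    have h2 := fun (f : Lp ℂ 2 (volume : Measure (R257.SP.V n))) (y : R257.SP.V n) =>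
      R257.SP.EXT_proof n E (ball y ρ) _ ENNReal.ofReal_ne_top measurableSet_ball
        (fun f => h1 f y) f
    have h3 := fun f => R257.SP.AE_proof R257.SP.INV_proof n E ρ _ hρ ENNReal.ofReal_ne_top h2 f
    exact fun f g hfg => R257.SP.conv_bridge E h3 f g hfg.1 hfg.2.1 hfg.2.2

end Pool.Agent.Results.MP_ee701d_an.LogCovering
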