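import Mathlib
import Pool.Agent.R765.BSf

/-!
Ball partial sums of square integrable functions after random motions of their annular pieces.

Let `f ∈ L²(ℝⁿ)` have the Fourier transform `g`, cut the frequency space into rings
`{ξ : N ‖ξ‖ = m}`, `m = 0, 1, 2, …`, of volume at most `V` (for instance
`m ≤ ‖ξ‖ ^ n < m + 1`), and let the annular pieces of `f` be moved by independent random motions:
multiplication by random signs, translations, rotations, or any combination of them. For the function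
`f ^ ω` obtained in this way, minus its mean, the ball partial sums `S_R` converge almost everywhere
as the real number `R` tends to infinity, almost surely, and the maximal function `S^*`, the supremum
over all `R`, satisfies an `L²` inequality in the mean on every set `B` of finite measure, with the
constant `32 + 8 V |B|`. For random signs, and for random translations whose law has a square
integrable density (for instance by vectors uniformly distributed in a small ball), nothing has to be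
subtracted for the convergence.
-/

set_option autoImplicit false

open MeasureTheory ProbabilityTheory Filter Topology
open scoped ENNReal RealInnerProductSpace

namespace Pool.Agent.Results.MP_ee701d_an.RandomMotions

/-- `ℝⁿ` -/
abbrev E (n : ℕ) := EuclideanSpace ℝ (Fin n)

variable {n : ℕ} {Ω : Type} [MeasurableSpace Ω] {Θ : Type} [MeasurableSpace Θ]

/-- the ball partial sum `S_R f (x)` of the function `f` with the Fourier transform `h` -/
noncomputable def ballSum (h : E n → ℂ) (R : ℝ) (x : E n) : ℂ :=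
  ∫ ξ in Metric.closedBall (0 : E n) R,
    h ξ * Complex.exp (2 * Real.pi * Complex.I * ((⟪x, ξ⟫ : ℝ) : ℂ))

/-- the rings `{ξ : N ‖ξ‖ = m}` are bounded, in the natural order, and have volume at most `V` -/
structure Rings (n : ℕ) (N : ℝ → ℕ) (V : ℝ) : Prop where
  mono : Monotone N
  top : Tendsto N atTop atTop
  nonneg : 0 ≤ V
  vol : ∀ m, volume {ξ : E n | N ‖ξ‖ = m} ≤ ENNReal.ofReal V

/-- families of motions with a parameter `θ ∈ Θ`: the measurable functions `a θ` have absolute value
at most one (signs, or `exp (- 2 π i ⟨y, ξ⟩)` for translations) and the maps `T θ` of frequency space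
preserve the measure and the norm (rotations) -/
structure Motions (a : Θ → E n → ℂ) (T : Θ → E n → E n) : Prop where
  am : Measurable (Function.uncurry a)
  Tm : Measurable (Function.uncurry T)
  le : ∀ θ ξ, ‖a θ ξ‖ ≤ 1
  mp : ∀ θ, MeasurePreserving (T θ)
  norm : ∀ θ ξ, ‖T θ ξ‖ = ‖ξ‖

/-- the Fourier transform of the moved function: in the `m`-th ring the motion with the parameter
`t m ω` has been applied to `g` -/
noncomputable def moved (N : ℝ → ℕ) (t : ℕ → Ω → Θ) (a : Θ → E n → ℂ) (T : Θ → E n → E n)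
    (g : E n → ℂ) (ω : Ω) (ξ : E n) : ℂ :=
  a (t (N ‖ξ‖) ω) ξ * g (T (t (N ‖ξ‖) ω) ξ)

/-- the mean of `moved` -/
noncomputable def mean (P : Measure Ω) (N : ℝ → ℕ) (t : ℕ → Ω → Θ) (a : Θ → E n → ℂ)
    (T : Θ → E n → E n) (g : E n → ℂ) (ξ : E n) : ℂ := ∫ ω, moved N t a T g ω ξ ∂P

/-- almost surely the ball partial sums converge almost everywhere as `R → ∞` -/
def Converges (P : Measure Ω) (h : Ω → E n → ℂ) : Prop :=
  ∀ᵐ ω ∂P, ∀ᵐ x : E n, ∃ l : ℂ, Tendsto (fun R : ℝ => ballSum (h ω) R x) atTop (𝓝 l)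

/-- the maximal inequality in the mean: `E ∫_B sup_R |S_R|² ≤ (32 + 8 V |B|) K` -/
def MaximalInequality (P : Measure Ω) (h : Ω → E n → ℂ) (V K : ℝ) : Prop :=
  ∃ M : Ω → E n → ℝ≥0∞, Measurable (Function.uncurry M) ∧
    (∀ (ω : Ω) (x : E n) (R : ℝ), ‖ballSum (h ω) R x‖ₑ ^ 2 ≤ M ω x) ∧
    ∀ B : Set (E n), ∫⁻ ω, (∫⁻ x in B, M ω x) ∂P ≤
      (32 + 8 * ENNReal.ofReal V * volume B) * ENNReal.ofReal K

/-! ### an example of rings -/

theorem rings_example (n : ℕ) (hn : 0 < n) :
    Rings n (fun r => ⌊(max r 0) ^ n⌋₊) (volume (Metric.ball (0 : E n) 1)).toReal where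
  mono := by
    intro r s hrs
    exact Nat.floor_mono (pow_le_pow_left₀ (le_max_right _ _) (max_le_max hrs le_rfl) n)
  top := by
    have h1 : Tendsto (fun r : ℝ => (max r 0) ^ n) atTop atTop := by
      refine (tendsto_pow_atTop hn.ne').comp ?_
      exact tendsto_atTop_mono (fun r => le_max_left r 0) tendsto_id
    exact tendsto_nat_floor_atTop.comp h1
  nonneg := ENNReal.toReal_nonneg
  vol m := by
    have hn' : (n : ℝ) ≠ 0 := by exact_mod_cast hn.ne'
    have hnt : Nontrivial (E n) := Module.nontrivial_of_finrank_pos (R := ℝ) (by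
      rw [finrank_euclideanSpace, Fintype.card_fin]; exact hn)
    set r : ℕ → ℝ := fun k => (k : ℝ) ^ (1 / (n : ℝ)) with hr
    have hr0 : ∀ k, 0 ≤ r k := fun k => Real.rpow_nonneg (Nat.cast_nonneg k) _
    have hrn : ∀ k, r k ^ n = k := by
      intro k
      rw [hr, ← Real.rpow_natCast, ← Real.rpow_mul (Nat.cast_nonneg k), one_div,
        inv_mul_cancel₀ hn', Real.rpow_one]
    have hvol : ∀ k, volume (Metric.ball (0 : E n) (r k)) =
        ENNReal.ofReal k * volume (Metric.ball (0 : E n) 1) := by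
      intro k
      rw [Measure.addHaar_ball _ _ (hr0 k), finrank_euclideanSpace, Fintype.card_fin, hrn]
    have hsub : {ξ : E n | ⌊(max ‖ξ‖ 0) ^ n⌋₊ = m} ⊆
        Metric.ball (0 : E n) (r (m + 1)) \ Metric.ball (0 : E n) (r m) := by
      intro ξ hξ
      have h1 : ⌊(max ‖ξ‖ 0) ^ n⌋₊ = m := hξ
      rw [max_eq_left (norm_nonneg ξ)] at h1
      have h2 : (m : ℝ) ≤ ‖ξ‖ ^ n := by
        rw [← h1]; exact Nat.floor_le (by positivity)
      have h3 : ‖ξ‖ ^ n < (m : ℝ) + 1 := by
        rw [← h1]; exact Nat.lt_floor_add_one _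
      refine ⟨?_, fun h4 => ?_⟩
      · rw [Metric.mem_ball, dist_zero_right]
        refine lt_of_pow_lt_pow_left₀ n (hr0 _) ?_
        rw [hrn]
        push_cast
        exact h3
      · rw [Metric.mem_ball, dist_zero_right] at h4
        have h5 := pow_lt_pow_left₀ h4 (norm_nonneg ξ) hn.ne'
        rw [hrn] at h5
        linarith
    refine (measure_mono hsub).trans ?_
    have hfin : volume (Metric.ball (0 : E n) 1) ≠ ∞ := measure_ball_lt_top.ne
    rw [measure_sdiff (Metric.ball_subset_ball (by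
        rw [hr]
        exact Real.rpow_le_rpow (Nat.cast_nonneg m) (by push_cast; linarith) (by positivity)))
      measurableSet_ball.nullMeasurableSet measure_ball_lt_top.ne, hvol, hvol,
      ENNReal.ofReal_toReal hfin, ← ENNReal.sub_mul (fun _ _ => hfin),
      ← ENNReal.ofReal_sub _ (Nat.cast_nonneg m)]
    push_cast
    rw [add_sub_cancel_left, ENNReal.ofReal_one, one_mul]

/-! ### the theorem -/

theorem dat {N : ℝ → ℕ} {V : ℝ} (hr : Rings n N V) {g : E n → ℂ} (hgm : Measurable g)
    (hg : MemLp g 2) {P : Measure Ω} [IsProbabilityMeasure P] {t : ℕ → Ω → Θ}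
    (ht : ∀ m, Measurable (t m)) (hind : iIndepFun t P) {a : Θ → E n → ℂ} {T : Θ → E n → E n}
    (hM : Motions a T) :
    Pool.Agent.R765.BS.Dat P N V t (Pool.Agent.R765.BS.mot a T g)
      fun m => ∫ ξ in Pool.Agent.R765.BS.ring n N m, ‖g ξ‖ ^ 2 :=
  Pool.Agent.R765.BS.dat_mot ⟨hr.mono, hr.top, hr.nonneg, hr.vol⟩
    ⟨hM.am, hM.Tm, hM.le, hM.mp, hM.norm⟩ hgm hg ht hind

theorem main {N : ℝ → ℕ} {V : ℝ} (hr : Rings n N V) {g : E n → ℂ} (hgm : Measurable g)
    (hg : MemLp g 2) {P : Measure Ω} [IsProbabilityMeasure P] {t : ℕ → Ω → Θ}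
    (ht : ∀ m, Measurable (t m)) (hind : iIndepFun t P) {a : Θ → E n → ℂ} {T : Θ → E n → E n}
    (hM : Motions a T) :
    Converges P (fun ω ξ => moved N t a T g ω ξ - mean P N t a T g ξ) ∧
    MaximalInequality P (fun ω ξ => moved N t a T g ω ξ - mean P N t a T g ξ) V
      (∫ ξ, ‖g ξ‖ ^ 2) ∧
    (Integrable (mean P N t a T g) → Converges P (moved N t a T g)) := by
  have h := dat hr hgm hg ht hind hM
  refine ⟨h.ball_conv, ⟨fun ω x => Pool.Agent.R765.BS.Mj P N V t (Pool.Agent.R765.BS.mot a T g)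
    (fun m => ∫ ξ in Pool.Agent.R765.BS.ring n N m, ‖g ξ‖ ^ 2) ω x, h.Mj_meas,
    fun ω x R => h.le_Mj hr.nonneg ω x R, fun B => ?_⟩, fun hm => h.full_conv hm⟩
  have h1 := h.Mj_le hr.nonneg B
  rwa [(Pool.Agent.R765.BS.ring_sum hr.mono hg).tsum_eq] at h1

/-- truncation to `[-1, 1]` -/
noncomputable def clip (s : ℝ) : ℝ := max (-1) (min 1 s)

theorem signs {N : ℝ → ℕ} {V : ℝ} (hr : Rings n N V) {g : E n → ℂ} (hgm : Measurable g)
    (hg : MemLp g 2) {P : Measure Ω} [IsProbabilityMeasure P] {ε : ℕ → Ω → ℝ}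
    (hε : ∀ m, Measurable (ε m)) (hind : iIndepFun ε P) (hb : ∀ m ω, |ε m ω| ≤ 1)
    (h0 : ∀ m, ∫ ω, ε m ω ∂P = 0) :
    Converges P (fun ω ξ => (ε (N ‖ξ‖) ω : ℂ) * g ξ) ∧
    MaximalInequality P (fun ω ξ => (ε (N ‖ξ‖) ω : ℂ) * g ξ) V (∫ ξ, ‖g ξ‖ ^ 2) := by
  have hM : Motions (Θ := ℝ) (fun s (_ : E n) => (clip s : ℂ)) (fun _ ξ => ξ) := by
    refine ⟨?_, measurable_snd, fun s ξ => ?_, fun _ => MeasurePreserving.id _, fun _ _ => rfl⟩
    · have h1 : Measurable clip := measurable_const.max (measurable_const.min measurable_id)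
      exact (Complex.measurable_ofReal.comp h1).comp measurable_fst
    · rw [Complex.norm_real, Real.norm_eq_abs, abs_le]
      exact ⟨le_max_left _ _, max_le (by norm_num) (min_le_left _ _)⟩
  have hclip : ∀ m ω, clip (ε m ω) = ε m ω := by
    intro m ω
    have := abs_le.1 (hb m ω)
    unfold clip
    rw [min_eq_right this.2, max_eq_right this.1]
  have hmv : moved N ε (fun s (_ : E n) => (clip s : ℂ)) (fun _ ξ => ξ) g =
      fun ω ξ => (ε (N ‖ξ‖) ω : ℂ) * g ξ := by
    funext ω ξ
    simp only [moved, hclip]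
  have hmean : ∀ ξ, mean P N ε (fun s (_ : E n) => (clip s : ℂ)) (fun _ ξ => ξ) g ξ = 0 := by
    intro ξ
    unfold mean
    rw [hmv]
    simp only
    rw [integral_mul_const, integral_complex_ofReal, h0]
    simp
  obtain ⟨h1, h2, -⟩ := main hr hgm hg hε hind hM
  have h3 : (fun ω ξ => moved N ε (fun s (_ : E n) => (clip s : ℂ)) (fun _ ξ => ξ) g ω ξ -
      mean P N ε (fun s (_ : E n) => (clip s : ℂ)) (fun _ ξ => ξ) g ξ) =
      fun ω ξ => (ε (N ‖ξ‖) ω : ℂ) * g ξ := by
    funext ω ξ
    rw [hmean, sub_zero, hmv]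
  rw [h3] at h1 h2
  exact ⟨h1, h2⟩

theorem translations {N : ℝ → ℕ} {V : ℝ} (hr : Rings n N V) {g : E n → ℂ} (hgm : Measurable g)
    (hg : MemLp g 2) {P : Measure Ω} [IsProbabilityMeasure P] {y : ℕ → Ω → E n}
    (hy : ∀ m, Measurable (y m)) (hind : iIndepFun y P) {ρ : E n → ℝ} (hρm : Measurable ρ)
    (hρ0 : ∀ v, 0 ≤ ρ v) (hρ1 : Integrable ρ) (hρ2 : MemLp ρ 2)
    (hlaw : ∀ m, P.map (y m) = volume.withDensity fun v => ENNReal.ofReal (ρ v)) :
    Converges P (fun ω ξ =>
      Complex.exp (2 * Real.pi * Complex.I * ((⟪-(y (N ‖ξ‖) ω), ξ⟫ : ℝ) : ℂ)) * g ξ) := by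
  have hec : Continuous fun p : E n × E n => Pool.Agent.R765.BS.ex (-p.1) p.2 := by
    have h1 : Continuous fun p : E n × E n => ((-p.1, p.2) : E n × E n) :=
      continuous_fst.neg.prodMk continuous_snd
    exact Pool.Agent.R765.BS.ex_cont.comp h1
  have hM : Motions (Θ := E n) (fun v ξ => Pool.Agent.R765.BS.ex (-v) ξ) (fun _ ξ => ξ) :=
    ⟨hec.measurable, measurable_snd, fun v ξ => (Pool.Agent.R765.BS.ex_norm _ _).le,
      fun _ => MeasurePreserving.id _, fun _ _ => rfl⟩
  obtain ⟨-, -, h3⟩ := main hr hgm hg hy hind hM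
  refine h3 ?_
  have hφ := Pool.Agent.R765.BS.char_memLp (hy 0) hρ0 hρ1 hρm hρ2 (hlaw 0)
  have hmean : mean P N y (fun v ξ => Pool.Agent.R765.BS.ex (-v) ξ) (fun _ ξ => ξ) g =
      fun ξ => (∫ ω, Pool.Agent.R765.BS.ex (-(y 0 ω)) ξ ∂P) * g ξ := by
    funext ξ
    unfold mean moved
    rw [integral_mul_const]
    congr 1
    have hc : Continuous fun v : E n => Pool.Agent.R765.BS.ex (-v) ξ := by
      have h1 : Continuous fun v : E n => ((v, ξ) : E n × E n) := continuous_id.prodMk continuous_const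
      exact hec.comp h1
    have e1 : ∀ m, ∫ ω, Pool.Agent.R765.BS.ex (-(y m ω)) ξ ∂P =
        ∫ v, Pool.Agent.R765.BS.ex (-v) ξ ∂(P.map (y m)) := fun m =>
      (integral_map (hy m).aemeasurable hc.aestronglyMeasurable).symm
    rw [e1, e1, hlaw, hlaw]
  rw [hmean]
  exact hφ.integrable_mul hg

/-- Let `g` be the Fourier transform of a square integrable function `f` on `ℝⁿ` and let the rings
`{ξ : N ‖ξ‖ = m}` have volume at most `V`.

(0) For `n ≥ 1` the rings `m ≤ ‖ξ‖ ^ n < m + 1` have this property, `V` the volume of the unit ball.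

(1) Let the motions with the independent random parameters `t m` be applied to the annular pieces of
`f`. Then almost surely the ball partial sums of the moved function minus its mean converge almost
everywhere, and they satisfy the maximal inequality in the mean. If the Fourier transform of the mean
is integrable, then almost surely the ball partial sums of the moved function converge almost
everywhere.

(2) If the annular pieces are multiplied by independent random numbers of absolute value at most one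
and mean zero (for instance signs), nothing has to be subtracted.

(3) If the annular pieces are translated by independent random vectors whose common law has a square
integrable density, then almost surely the ball partial sums converge almost everywhere. -/
theorem result {n : ℕ} :
    (0 < n → Rings n (fun r => ⌊(max r 0) ^ n⌋₊) (volume (Metric.ball (0 : E n) 1)).toReal) ∧
    ∀ {N : ℝ → ℕ} {V : ℝ}, Rings n N V → ∀ {g : E n → ℂ}, Measurable g → MemLp g 2 →
    ∀ {Ω : Type} [MeasurableSpace Ω] (P : Measure Ω) [IsProbabilityMeasure P],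
      (∀ {Θ : Type} [MeasurableSpace Θ] (t : ℕ → Ω → Θ) (a : Θ → E n → ℂ) (T : Θ → E n → E n),
        (∀ m, Measurable (t m)) → iIndepFun t P → Motions a T →
        Converges P (fun ω ξ => moved N t a T g ω ξ - mean P N t a T g ξ) ∧
        MaximalInequality P (fun ω ξ => moved N t a T g ω ξ - mean P N t a T g ξ) V
          (∫ ξ, ‖g ξ‖ ^ 2) ∧
        (Integrable (mean P N t a T g) → Converges P (moved N t a T g))) ∧
      (∀ ε : ℕ → Ω → ℝ, (∀ m, Measurable (ε m)) → iIndepFun ε P → (∀ m ω, |ε m ω| ≤ 1) →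
        (∀ m, ∫ ω, ε m ω ∂P = 0) →
        Converges P (fun ω ξ => (ε (N ‖ξ‖) ω : ℂ) * g ξ) ∧
        MaximalInequality P (fun ω ξ => (ε (N ‖ξ‖) ω : ℂ) * g ξ) V (∫ ξ, ‖g ξ‖ ^ 2)) ∧
      (∀ (y : ℕ → Ω → E n) (ρ : E n → ℝ), (∀ m, Measurable (y m)) → iIndepFun y P →
        Measurable ρ → (∀ v, 0 ≤ ρ v) → Integrable ρ → MemLp ρ 2 →
        (∀ m, P.map (y m) = volume.withDensity fun v => ENNReal.ofReal (ρ v)) →
        Converges P (fun ω ξ =>
          Complex.exp (2 * Real.pi * Complex.I * ((⟪-(y (N ‖ξ‖) ω), ξ⟫ : ℝ) : ℂ)) * g ξ)) := by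
  refine ⟨fun hn => rings_example n hn, ?_⟩
  intro N V hr g hgm hg Ω _ P _
  refine ⟨?_, ?_, ?_⟩
  · intro Θ _ t a T ht hind hM
    exact main hr hgm hg ht hind hM
  · intro ε hε hind hb h0
    exact signs hr hgm hg hε hind hb h0
  · intro y ρ hy hind hρm hρ0 hρ1 hρ2 hlaw
    exact translations hr hgm hg hy hind hρm hρ0 hρ1 hρ2 hlaw

end Pool.Agent.Results.MP_ee701d_an.RandomMotions
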